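import Pool.Agent.Helper38.Curl.Rep
import Pool.Agent.Helper94.Curl.Geo2
import Pool.Agent.Helper94.Curl.Sd

/-!
# Convergence of the blow-ups in the mean up to the boundary
-/

open MeasureTheory Set Filter Topology Metric
open scoped RealInnerProductSpace ENNReal
open Pool.Agent.Helper38.Curl

namespace Pool.Agent.Helper45.Curl

/-- The square integral on a set and the norm of `L²`. -/
theorem eLpNorm_two_eq {S : Set E} {v : E → E} (hv : MemLp v 2 (volume.restrict S)) :
    eLpNorm v 2 (volume.restrict S) = ENNReal.ofReal (√(sqOn S v)) := by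
  rw [hv.eLpNorm_eq_integral_rpow_norm (by norm_num) (by norm_num)]
  congr 1
  rw [Real.sqrt_eq_rpow]
  simp [sqOn]

theorem eLpNorm_one_union_le (f : E → E) (S T : Set E) :
    eLpNorm f 1 (volume.restrict (S ∪ T))
      ≤ eLpNorm f 1 (volume.restrict S) + eLpNorm f 1 (volume.restrict T) := by
  simp only [eLpNorm_one_eq_lintegral_enorm]
  exact lintegral_union_le _ _ _

theorem eLpNorm_one_mono (f : E → E) {S T : Set E} (h : S ⊆ T) :
    eLpNorm f 1 (volume.restrict S) ≤ eLpNorm f 1 (volume.restrict T) :=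
  eLpNorm_mono_measure _ (Measure.restrict_mono h le_rfl)

/-- Cauchy-Schwarz. -/
theorem eLpNorm_one_le {f : E → E} {S : Set E} (hf : AEStronglyMeasurable f (volume.restrict S)) :
    eLpNorm f 1 (volume.restrict S)
      ≤ eLpNorm f 2 (volume.restrict S) * volume S ^ (1 / 2 : ℝ) := by
  have := eLpNorm_le_eLpNorm_mul_rpow_measure_univ (p := 1) (q := 2) (by norm_num) hf
  rw [Measure.restrict_apply_univ] at this
  convert this using 3
  norm_num

theorem ell1_of {Ω : Set E} {u a : E → E} {Λ : ℝ} (hc : Crit Ω u a Λ) {r₀ c₀ CU : ℝ}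
    (hc₀ : 0 < c₀) (hG : Growth Ω u CU) {x : ℕ → E} {s : ℕ → ℝ} {ν : E} {g : E → ℝ} {V : E → E}
    (h : Bl Ω u r₀ c₀ x s ν g V) {e : E} (hV : ∀ᵐ z, 0 < g z → V z = e) (R : ℝ)
    (hstrong : ∀ z ρ, 0 < ρ → closedBall z ρ ⊆ {z | 0 < g z} →
      Tendsto (fun n => sqOn (ball z (ρ / 2)) (fun y => bl u (x n) (s n) y - V y)) atTop (𝓝 0))
    (hbl : ∀ n, sqOn (ball 0 R) (bl u (x n) (s n))
      = (s n ^ 3)⁻¹ * sqOn (ball (x n + s n • (0 : E)) (s n * R)) u)
    (hmem : ∀ n, MemLp (bl u (x n) (s n)) 2) :
    Tendsto (fun n => ∫ z in ball 0 R ∩ {z | x n + s n • z ∈ Ω}, ‖bl u (x n) (s n) z - e‖)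
      atTop (𝓝 0) := by
  have hne : Ω.Nonempty := by
    by_contra hn
    rw [not_nonempty_iff_eq_empty] at hn
    have := hc.vol
    rw [hn] at this
    simp at this
  have hne' : Ωᶜ.Nonempty := by
    by_contra hn
    rw [not_nonempty_iff_eq_empty, compl_empty_iff] at hn
    have h1 := hc.vol
    rw [hn, measure_univ_of_isAddLeftInvariant] at h1
    simp at h1
  rcases le_or_gt R 0 with hR | hR
  · simp [ball_eq_empty.2 hR]
  set v : ℕ → E → E := fun n => bl u (x n) (s n) with hvdef
  set O : ℕ → Set E := fun n => {z | x n + s n • z ∈ Ω} with hOdef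
  set P : Set E := {z | 0 < g z} with hPdef
  have hPo : IsOpen P := isOpen_lt continuous_const h.lip.continuous
  have hOo : ∀ n, IsOpen (O n) := fun n => hc.isOpen.preimage (by fun_prop)
  have hvm : ∀ n, MemLp (v n) 2 := hmem
  have hae : ∀ n, AEStronglyMeasurable (fun z => v n z - e) volume := fun n =>
    (hvm n).aestronglyMeasurable.sub aestronglyMeasurable_const
  have hballfin : volume (ball (0 : E) R) ≠ ∞ := measure_ball_lt_top.ne
  -- the uniform bound
  obtain ⟨D, hD, hDb⟩ : ∃ D : ℝ≥0∞, D ≠ ∞ ∧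
      ∀ᶠ n in atTop, eLpNorm (fun z => v n z - e) 2 (volume.restrict (ball 0 R)) ≤ D := by
    have hce : MemLp (fun _ : E => e) 2 (volume.restrict (ball (0 : E) R)) := by
      have : IsFiniteMeasure (volume.restrict (ball (0 : E) R)) :=
        ⟨by rw [Measure.restrict_apply_univ]; exact measure_ball_lt_top⟩
      exact memLp_const e
    refine ⟨ENNReal.ofReal (√(CU * R ^ 3)) +
      eLpNorm (fun _ : E => e) 2 (volume.restrict (ball (0 : E) R)),
      ENNReal.add_ne_top.2 ⟨ENNReal.ofReal_ne_top, hce.2.ne⟩, ?_⟩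
    have hs1 : ∀ᶠ n in atTop, s n < 1 / R :=
      h.slim.eventually_lt_const (by positivity)
    filter_upwards [hs1] with n hn
    have hsn := h.spos n
    have h1 : sqOn (ball 0 R) (v n) ≤ CU * R ^ 3 := by
      have h2 := hG (x n) (h.mem n) (s n * R) (by positivity)
        (by rw [lt_div_iff₀ hR] at hn; exact hn.le)
      rw [hvdef]
      simp only
      rw [hbl n, smul_zero, add_zero]
      calc (s n ^ 3)⁻¹ * sqOn (ball (x n) (s n * R)) u
          ≤ (s n ^ 3)⁻¹ * (CU * (s n * R) ^ 3) := by gcongr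
        _ = CU * R ^ 3 := by
          field_simp
    calc eLpNorm (fun z => v n z - e) 2 (volume.restrict (ball 0 R))
        ≤ eLpNorm (v n) 2 (volume.restrict (ball 0 R)) +
          eLpNorm (fun _ : E => e) 2 (volume.restrict (ball (0 : E) R)) :=
          eLpNorm_sub_le ((hvm n).aestronglyMeasurable.restrict) hce.1 (by norm_num)
      _ ≤ _ := by
          gcongr
          rw [eLpNorm_two_eq ((hvm n).restrict _)]
          exact ENNReal.ofReal_le_ofReal (Real.sqrt_le_sqrt h1)
  -- convergence on compact subsets of `P`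
  have hK : ∀ K : Set E, IsCompact K → K ⊆ P →
      Tendsto (fun n => eLpNorm (fun z => v n z - e) 1 (volume.restrict K)) atTop (𝓝 0) := by
    intro K hKc hKP
    have hmono : ∀ S T : Set E, S ⊆ T →
        Tendsto (fun n => eLpNorm (fun z => v n z - e) 1 (volume.restrict T)) atTop (𝓝 0) →
        Tendsto (fun n => eLpNorm (fun z => v n z - e) 1 (volume.restrict S)) atTop (𝓝 0) := by
      intro S T hST hT
      exact tendsto_of_tendsto_of_tendsto_of_le_of_le tendsto_const_nhds hT
        (fun n => zero_le) (fun n => eLpNorm_one_mono _ hST)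
    refine hKc.induction_on
      (p := fun S => Tendsto (fun n => eLpNorm (fun z => v n z - e) 1 (volume.restrict S))
        atTop (𝓝 0)) ?_ ?_ ?_ ?_
    · simp
    · intro S T hST hT
      exact hmono S T hST hT
    · intro S T hS hT
      have := hS.add hT
      rw [add_zero] at this
      exact tendsto_of_tendsto_of_tendsto_of_le_of_le tendsto_const_nhds this
        (fun n => zero_le) (fun n => eLpNorm_one_union_le _ S T)
    · intro z hz
      obtain ⟨ρ, hρ, hρP⟩ := nhds_basis_closedBall.mem_iff.1 (hPo.mem_nhds (hKP hz))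
      refine ⟨ball z (ρ / 2), mem_nhdsWithin_of_mem_nhds (ball_mem_nhds z (by positivity)), ?_⟩
      have hloc : MemLp V 2 (volume.restrict (ball z (ρ / 2))) := by
        refine (h.loc (‖z‖ + ρ)).mono_measure (Measure.restrict_mono ?_ le_rfl)
        intro y hy
        rw [mem_ball] at hy
        rw [mem_ball_zero_iff]
        have : ‖y‖ ≤ dist y z + ‖z‖ := by
          rw [dist_eq_norm]
          calc ‖y‖ = ‖(y - z) + z‖ := by simp
            _ ≤ _ := norm_add_le _ _
        linarith
      have h1 : ∀ n, eLpNorm (fun y => v n y - e) 1 (volume.restrict (ball z (ρ / 2)))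
          ≤ ENNReal.ofReal (√(sqOn (ball z (ρ / 2)) (fun y => v n y - V y)))
            * volume (ball z (ρ / 2)) ^ (1 / 2 : ℝ) := by
        intro n
        have h2 : (fun y => v n y - e) =ᵐ[volume.restrict (ball z (ρ / 2))]
            fun y => v n y - V y := by
          have h3 : ∀ᵐ y ∂(volume.restrict (ball z (ρ / 2))), y ∈ ball z (ρ / 2) :=
            ae_restrict_mem measurableSet_ball
          filter_upwards [h3, ae_restrict_of_ae hV] with y hy hy2
          rw [hy2 (hρP (ball_subset_closedBall (ball_subset_ball (by linarith) hy)))]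
        rw [eLpNorm_congr_ae h2]
        have h4 : MemLp (fun y => v n y - V y) 2 (volume.restrict (ball z (ρ / 2))) :=
          ((hvm n).restrict _).sub hloc
        rw [← eLpNorm_two_eq h4]
        exact eLpNorm_one_le h4.1
      have h5 : Tendsto (fun n => ENNReal.ofReal (√(sqOn (ball z (ρ / 2))
          (fun y => v n y - V y))) * volume (ball z (ρ / 2)) ^ (1 / 2 : ℝ)) atTop (𝓝 0) := by
        have h6 := (hstrong z ρ hρ hρP).sqrt
        rw [Real.sqrt_zero] at h6
        have h7 := ENNReal.tendsto_ofReal h6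
        rw [ENNReal.ofReal_zero] at h7
        have h8 := ENNReal.Tendsto.mul_const (b := volume (ball z (ρ / 2)) ^ (1 / 2 : ℝ)) h7
          (Or.inr (ENNReal.rpow_ne_top_of_nonneg (by norm_num) measure_ball_lt_top.ne))
        rwa [zero_mul] at h8
      exact tendsto_of_tendsto_of_tendsto_of_le_of_le tendsto_const_nhds h5
        (fun n => zero_le) h1
  -- the part of the domains outside of `P`
  have hout : Tendsto (fun n => volume ((ball 0 R ∩ O n) \ P)) atTop (𝓝 0) := by
    have h1 := tendsto_measure_of_ae_tendsto_indicator (μ := (volume : Measure E)) atTop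
      (A := ∅) (As := fun n => (ball 0 R ∩ O n) \ P) MeasurableSet.empty
      (fun n => (measurableSet_ball.inter (hOo n).measurableSet).diff hPo.measurableSet)
      (B := ball 0 R) measurableSet_ball hballfin
      (Eventually.of_forall fun n z hz => hz.1.1) ?_
    · simpa using h1
    have hnull : ∀ᵐ z : E, g z ≠ 0 := by
      rw [ae_iff]
      simpa using Pool.Agent.Helper94.Curl.limit_null hc₀ h.nu h.lip h.trans
    filter_upwards [hnull] with z hz
    rcases lt_or_gt_of_ne hz with hz1 | hz1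
    · have h2 := (h.conv ‖z‖).tendsto_at (mem_closedBall_zero_iff.2 le_rfl)
      have h3 : ∀ᶠ n in atTop, sd Ω (x n + s n • z) / s n < 0 := h2.eventually_lt_const hz1
      filter_upwards [h3] with n hn
      simp only [mem_empty_iff_false, iff_false]
      intro hmem
      have h4 : 0 < sd Ω (x n + s n • z) :=
        (Pool.Agent.Helper94.Curl.sd_pos_iff hc.isOpen hne hne').2 hmem.1.2
      exact absurd (div_pos h4 (h.spos n)) (not_lt.2 hn.le)
    · refine Eventually.of_forall fun n => ?_
      simp only [mem_empty_iff_false, iff_false]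
      intro hmem
      exact hmem.2 hz1
  -- conclusion
  have hmain : Tendsto (fun n => eLpNorm (fun z => v n z - e) 1
      (volume.restrict (ball 0 R ∩ O n))) atTop (𝓝 0) := by
    rw [ENNReal.tendsto_nhds_zero]
    intro ε hε
    have hcont : Tendsto (fun δ : ℝ≥0∞ => D * (δ + δ) ^ (1 / 2 : ℝ)) (𝓝 0) (𝓝 0) := by
      have h1 : Tendsto (fun δ : ℝ≥0∞ => (δ + δ) ^ (1 / 2 : ℝ)) (𝓝 0) (𝓝 0) := by
        have h2 : Continuous (fun δ : ℝ≥0∞ => (δ + δ) ^ (1 / 2 : ℝ)) :=
          ENNReal.continuous_rpow_const.comp (continuous_id.add continuous_id)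
        have h3 := h2.tendsto 0
        simpa using h3
      have h2 := ENNReal.Tendsto.const_mul h1 (Or.inr hD)
      rwa [mul_zero] at h2
    have hε2 : 0 < ε / 2 := ENNReal.half_pos hε.ne'
    have h1 : ∀ᶠ δ in 𝓝 (0 : ℝ≥0∞), D * (δ + δ) ^ (1 / 2 : ℝ) ≤ ε / 2 :=
      (ENNReal.tendsto_nhds_zero.1 hcont) _ hε2
    obtain ⟨δ, hδ, hδ1⟩ : ∃ δ : ℝ≥0∞, 0 < δ ∧ D * (δ + δ) ^ (1 / 2 : ℝ) ≤ ε / 2 := by
      have h2 : ∃ᶠ δ in 𝓝 (0 : ℝ≥0∞), 0 < δ := by
        have : (𝓝[>] (0 : ℝ≥0∞)).NeBot := inferInstance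
        exact (frequently_iff_neBot.2 this)
      exact (h2.and_eventually h1).exists
    obtain ⟨K, hKsub, hKc, hKε⟩ := (measurableSet_ball.inter hPo.measurableSet
      : MeasurableSet (ball (0 : E) R ∩ P)).exists_isCompact_sdiff_lt
      (measure_ne_top_of_subset inter_subset_left hballfin) hδ.ne'
    have h2 := (ENNReal.tendsto_nhds_zero.1 (hK K hKc fun z hz => (hKsub hz).2)) _ hε2
    have h3 := (ENNReal.tendsto_nhds_zero.1 hout) _ hδ
    filter_upwards [h2, h3, hDb] with n hn2 hn3 hnD
    have hE : volume ((ball 0 R ∩ O n) \ K) ≤ δ + δ := by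
      have h4 : (ball 0 R ∩ O n) \ K ⊆ ((ball 0 R ∩ P) \ K) ∪ ((ball 0 R ∩ O n) \ P) := by
        intro z hz
        by_cases hzP : z ∈ P
        · exact Or.inl ⟨⟨hz.1.1, hzP⟩, hz.2⟩
        · exact Or.inr ⟨hz.1, hzP⟩
      calc volume ((ball 0 R ∩ O n) \ K) ≤ _ := measure_mono h4
        _ ≤ _ := measure_union_le _ _
        _ ≤ δ + δ := add_le_add hKε.le hn3
    calc eLpNorm (fun z => v n z - e) 1 (volume.restrict (ball 0 R ∩ O n))
        ≤ eLpNorm (fun z => v n z - e) 1 (volume.restrict (K ∪ (ball 0 R ∩ O n) \ K)) :=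
          eLpNorm_one_mono _ (by intro z hz; by_cases hzK : z ∈ K <;> simp_all)
      _ ≤ eLpNorm (fun z => v n z - e) 1 (volume.restrict K) +
          eLpNorm (fun z => v n z - e) 1 (volume.restrict ((ball 0 R ∩ O n) \ K)) :=
          eLpNorm_one_union_le _ _ _
      _ ≤ ε / 2 + ε / 2 := by
          refine add_le_add hn2 ?_
          calc eLpNorm (fun z => v n z - e) 1 (volume.restrict ((ball 0 R ∩ O n) \ K))
              ≤ eLpNorm (fun z => v n z - e) 2 (volume.restrict ((ball 0 R ∩ O n) \ K))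
                * volume ((ball 0 R ∩ O n) \ K) ^ (1 / 2 : ℝ) :=
                eLpNorm_one_le (hae n).restrict
            _ ≤ D * (δ + δ) ^ (1 / 2 : ℝ) := by
                gcongr
                refine le_trans (eLpNorm_mono_measure _
                  (Measure.restrict_mono ?_ le_rfl)) hnD
                exact fun z hz => hz.1.1
            _ ≤ ε / 2 := hδ1
      _ = ε := ENNReal.add_halves ε
  have hfin := (ENNReal.tendsto_toReal ENNReal.zero_ne_top).comp hmain
  rw [ENNReal.toReal_zero] at hfin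
  refine hfin.congr fun n => ?_
  simp only [Function.comp_apply]
  rw [eLpNorm_one_eq_lintegral_enorm,
    integral_norm_eq_lintegral_enorm (hae n).restrict]

end Pool.Agent.Helper45.Curl
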