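import Pool.Agent.Helper45.Curl.Ell1
import Pool.Agent.Helper36.Curl.V2

/-!
# Convergence of the blow-ups in the mean up to the boundary (second form)
-/

open MeasureTheory Set Filter Topology Metric
open scoped RealInnerProductSpace
open Pool.Agent.Helper38.Curl

namespace Pool.Agent.Helper45.Curl

/-- The packet C-F1; the only hypothesis besides those of the packet is the strong convergence of
the blow-ups inside the limit domain (packet C-BL2, for the given sequence). -/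
theorem ell1 {Ω : Set E} {u a : E → E} {Λ : ℝ} (hc : Crit Ω u a Λ) {r₀ c₀ CU : ℝ}
    (hc₀ : 0 < c₀) (hG : Growth Ω u CU) {x : ℕ → E} {s : ℕ → ℝ} {ν : E} {g : E → ℝ} {V : E → E}
    (h : Bl Ω u r₀ c₀ x s ν g V) {e : E} (hV : ∀ᵐ z, 0 < g z → V z = e) (R : ℝ)
    (hstrong : ∀ (z : E) (ρ : ℝ), 0 < ρ → closedBall z ρ ⊆ {z | 0 < g z} →
      Tendsto (fun n => sqOn (ball z (ρ / 2)) (fun y => bl u (x n) (s n) y - V y)) atTop (𝓝 0)) :
    Tendsto (fun n => ∫ z in ball 0 R ∩ {z | x n + s n • z ∈ Ω}, ‖bl u (x n) (s n) z - e‖)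
      atTop (𝓝 0) :=
  ell1_of hc hc₀ hG h hV R hstrong
    (fun n => Pool.Agent.Helper36.Curl.sqOn_bl u (x n) 0 (h.spos n) R)
    (fun n => Pool.Agent.Helper36.Curl.bl_memLp hc.pot.memLp₂ (x n) (h.spos n))

end Pool.Agent.Helper45.Curl
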